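import Pool.Agent.Lib.MP_bf61d2_nt.Artin.R.DefsR

set_option autoImplicit false

/-!
RAY: edge repulsion for all twists by ray class characters (MP_bf61d2_nt): the statements of the
modules, as propositions. Each module proves one of them, from others as hypotheses.
-/

namespace Pool.Agent.Lib.MP_bf61d2_nt.Artin.Ray

open NumberField NumberField.mixedEmbedding NumberField.Units NumberField.InfinitePlace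
open IsDedekindDomain Module
open Pool.Agent.Lib.MP_bf61d2_nt.Zeta
open scoped Classical nonZeroDivisors

universe u

variable (K : Type u) [Field K] [NumberField K]

/-- BAS -/
def StBAS : Prop := ∀ (𝔪 : Ideal (𝓞 K)), 𝔪 ≠ ⊥ → ∀ ψ : Ideal (𝓞 K) →*₀ ℂ, IsRay 𝔪 ψ →
  (∀ I, ‖ψ I‖ ≤ 1) ∧ ∀ v : HeightOneSpectrum (𝓞 K), ¬ 𝔪 ≤ v.asIdeal → ‖ψ v.asIdeal‖ = 1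

/-- INV -/
def StINV : Prop := ∀ (𝔪 : Ideal (𝓞 K)), 𝔪 ≠ ⊥ → ∀ ψ : Ideal (𝓞 K) →*₀ ℂ, IsRay 𝔪 ψ →
  ∀ (J I I' : Ideal (𝓞 K)) (α β : 𝓞 K), α ≠ 0 → β ≠ 0 → α - β ∈ 𝔪 * J →
  (∀ φ : K →+* ℝ, 0 < φ α ↔ 0 < φ β) → Ideal.span {α} = J * I → Ideal.span {β} = J * I' →
  ψ I = ψ I'

/-- PER: periodic weights. -/
def StPER : Prop := ∀ (𝔪 : Ideal (𝓞 K)), 𝔪 ≠ ⊥ → ∀ ψ : Ideal (𝓞 K) →*₀ ℂ, IsRay 𝔪 ψ →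
  ∀ (J : (Ideal (𝓞 K))⁰) (ι : Type u) [Fintype ι] (b : Basis ι ℝ (mixedSpace K)),
  IsBasisOf J b → ∃ P : SG K → (ι → ℤ) → ℂ, (∀ σ a, ‖P σ a‖ ≤ 1) ∧
    (∀ σ a T, (∃ τ ∈ 𝔪 * (J : Ideal (𝓞 K)), mixedEmbedding K (τ : K) = pt b T) →
      P σ (a + T) = P σ a) ∧
    ∀ (a : ι → ℤ) (α : 𝓞 K) (I : Ideal (𝓞 K)), α ≠ 0 → mixedEmbedding K (α : K) = pt b a →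
      Ideal.span {α} = (J : Ideal (𝓞 K)) * I → P (sgn (pt b a)) a = ψ I

/-- UNF: unfolding. -/
def StUNF : Prop := ∀ F : Ideal (𝓞 K) → ℂ, (∀ I, ‖F I‖ ≤ 1) →
  ∀ (J : ClassGroup (𝓞 K) → (Ideal (𝓞 K))⁰), (∀ C, ClassGroup.mk0 (J C) = C⁻¹) →
  ∀ (ι : ClassGroup (𝓞 K) → Type u) [∀ C, Fintype (ι C)]
    (b : ∀ C, Basis (ι C) ℝ (mixedSpace K)), (∀ C, IsBasisOf (J C) (b C)) →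
  ∀ W : ∀ C, (ι C → ℤ) → ℂ, (∀ C (a : ι C → ℤ) (α : 𝓞 K) (I : Ideal (𝓞 K)), α ≠ 0 →
    mixedEmbedding K (α : K) = pt (b C) a → Ideal.span {α} = (J C : Ideal (𝓞 K)) * I →
    W C a = F I) →
  ∀ s : ℂ, 1 < s.re → LI F s =
    ∑ C, (torsionOrder K * en s (Ideal.absNorm (J C : Ideal (𝓞 K))))⁻¹ *
      ∑' a : ι C → ℤ, W C a * hh s (pt (b C) a)

/-- LIP: the Lipschitz estimate on an orthant. -/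
def StLIP : Prop := ∀ c σ₀ : ℝ, 0 < c → 0 < σ₀ → ∃ C₁ C₂ : ℝ, 0 < C₁ ∧ 0 < C₂ ∧
  ∀ R : ℝ, 1 ≤ R → ∀ x y : mixedSpace K, mixedEmbedding.norm x ≠ 0 → mixedEmbedding.norm y ≠ 0 →
    ‖x - y‖ ≤ c → C₂ * R ≤ ‖x‖ → ∀ (σ : SG K) (s : ℂ), σ₀ ≤ s.re → ‖s‖ ≤ R →
      ‖hS σ s y - hS σ s x‖ ≤ C₁ * R * ‖x‖ ^ (-(finrank ℚ K * σ₀ + 1))

/-- LAT: the lattice sums with periodic weights. -/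
def StLAT : Prop := ∀ (ι : Type u) [Fintype ι] (b : Basis ι ℝ (mixedSpace K)),
  Fintype.card ι = finrank ℚ K →
  (∀ a : ι → ℤ, a ≠ 0 → 1 ≤ mixedEmbedding.norm (pt b a)) →
  ∃ A : ℝ, 0 < A ∧ ∀ (m : ℕ) [NeZero m] (P : SG K → (ι → ℤ) → ℂ), (∀ σ a, ‖P σ a‖ ≤ 1) →
    (∀ σ (a y : ι → ℤ), P σ (a + fun i => y i * m) = P σ a) →
    ∃ H : ℂ → ℂ, DifferentiableOn ℂ H {s | ZB69.sg K < s.re} ∧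
      (∀ s : ℂ, 1 < s.re → H s = (s - 1) * ∑' a : ι → ℤ, P (sgn (pt b a)) a * hh s (pt b a)) ∧
      ∀ s : ℂ, (1 + ZB69.sg K) / 2 ≤ s.re → s.re ≤ 2 →
        ‖H s‖ ≤ A * (m : ℝ) ^ finrank ℚ K * (1 + |s.im|) ^ (finrank ℚ K + 2)

/-- SHIFT: shifts of the lattice sums. -/
def StSHIFT : Prop := ∀ (ι : Type u) [Fintype ι] (b : Basis ι ℝ (mixedSpace K)),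
  (∀ a : ι → ℤ, a ≠ 0 → 1 ≤ mixedEmbedding.norm (pt b a)) →
  ∀ T : ι → ℤ, ∃ B : ℝ, ∀ (g : (ι → ℤ) → ℂ), (∀ a, ‖g a‖ ≤ 1) → ∀ (σ : SG K) (x : ℝ), 0 < x →
    x ≤ 1 → ‖∑' a : ι → ℤ, g a * (hS σ ((1 + x : ℝ) : ℂ) (pt b (a + T)) -
      hS σ ((1 + x : ℝ) : ℂ) (pt b a))‖ ≤ B

/-- GROW -/
def StGROW : Prop := ∃ (η A : ℝ) (k : ℕ), 0 < η ∧ η < 1 ∧ 1 ≤ A ∧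
  ∀ (𝔪 : Ideal (𝓞 K)), 𝔪 ≠ ⊥ → ∀ ψ : Ideal (𝓞 K) →*₀ ℂ, IsRay 𝔪 ψ → ∃ H : ℂ → ℂ,
    DifferentiableOn ℂ H {s | 1 - η < s.re} ∧
    (∀ s : ℂ, 1 < s.re → H s = (s - 1) * LI (ψ : Ideal (𝓞 K) → ℂ) s) ∧
    ∀ s : ℂ, 1 - η < s.re → s.re ≤ 2 → ‖H s‖ ≤ A * (Ideal.absNorm 𝔪 * (1 + |s.im|)) ^ k

/-- LB -/
def StLB : Prop := ∃ C : ℝ, 0 < C ∧ ∀ (𝔪 : Ideal (𝓞 K)), 𝔪 ≠ ⊥ →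
  ∀ ψ : Ideal (𝓞 K) →*₀ ℂ, IsRay 𝔪 ψ → ∀ x u : ℝ, 0 < x → x ≤ 1 → (1 ≤ |u| ∨ BD ψ) →
    ‖LI (ψ : Ideal (𝓞 K) → ℂ) ((1 + x : ℝ) + u * Complex.I)‖ ≤
      C * Real.log (Ideal.absNorm 𝔪 * (|u| + 20)) ∧
    ‖deriv (LI (ψ : Ideal (𝓞 K) → ℂ)) ((1 + x : ℝ) + u * Complex.I)‖ ≤
      C * Real.log (Ideal.absNorm 𝔪 * (|u| + 20)) ^ 2

/-- EUL -/
def StEUL : Prop := ∀ ψ : Ideal (𝓞 K) →*₀ ℂ, (∀ I, ‖ψ I‖ ≤ 1) →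
  ∃ Λ : ℂ → ℂ, DifferentiableOn ℂ Λ {s | 1 < s.re} ∧ ∀ s : ℂ, 1 < s.re →
    Complex.exp (Λ s) = LI (ψ : Ideal (𝓞 K) → ℂ) s ∧
    ‖Λ s - SC (K := K) s.re (fun v => ψ v.asIdeal * ph s.im (nm v))‖ ≤ sqC K

/-- RES: the dichotomy. -/
def StRES : Prop := ∀ (𝔪 : Ideal (𝓞 K)), 𝔪 ≠ ⊥ → ∀ ψ : Ideal (𝓞 K) →*₀ ℂ, IsRay 𝔪 ψ →
  TR 𝔪 ψ ∨ BD ψ

/-- FIN -/
def StFIN : Prop := ∀ (𝔪 : Ideal (𝓞 K)), 𝔪 ≠ ⊥ → ∀ ψ : Ideal (𝓞 K) →*₀ ℂ, IsRay 𝔪 ψ →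
  {v : HeightOneSpectrum (𝓞 K) | ¬ 𝔪 ≤ v.asIdeal ∧ ψ v.asIdeal ≠ 1}.Finite → TR 𝔪 ψ

/-- CLR: large height. -/
def StCLR : Prop := ∃ A : ℝ, 0 ≤ A ∧ ∀ (𝔪 : Ideal (𝓞 K)), 𝔪 ≠ ⊥ →
  ∀ ψ : Ideal (𝓞 K) →*₀ ℂ, IsRay 𝔪 ψ → ∀ x u : ℝ, 0 < x → x ≤ 1 → 1 ≤ |u| →
    ‖PSI ψ x u‖ ≤ A * lm (Ideal.absNorm 𝔪) u

/-- CSXR: no pole for `ψ` and `ψ * ψ`. -/
def StCSXR : Prop := ∃ A : ℝ, 0 ≤ A ∧ ∀ (𝔪 : Ideal (𝓞 K)), 𝔪 ≠ ⊥ →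
  ∀ ψ : Ideal (𝓞 K) →*₀ ℂ, IsRay 𝔪 ψ → BD ψ → BD (ψ * ψ) → ∀ x u : ℝ, 0 < x → x ≤ 1 →
    ‖PSI ψ x u‖ ≤ A * lm (Ideal.absNorm 𝔪) u

/-- PN1R: a trivial character. -/
def StPN1R : Prop := ∃ A : ℝ, 0 ≤ A ∧ ∀ (𝔪 : Ideal (𝓞 K)), 𝔪 ≠ ⊥ →
  ∀ ψ : Ideal (𝓞 K) →*₀ ℂ, IsRay 𝔪 ψ → TR 𝔪 ψ → ∀ x u : ℝ, 0 < x → x ≤ 1 →
    ‖PSI ψ x u - SC (K := K) (1 + x) (fun v => ph u (nm v))‖ ≤ A * lm (Ideal.absNorm 𝔪) 0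

/-- CSRR: a quadratic character without pole, near the real axis. -/
def StCSRR : Prop := ∃ A : ℝ, 0 ≤ A ∧ ∀ (𝔪 : Ideal (𝓞 K)), 𝔪 ≠ ⊥ →
  ∀ ψ : Ideal (𝓞 K) →*₀ ℂ, IsRay 𝔪 ψ → TR 𝔪 (ψ * ψ) → BD ψ → ∀ x u : ℝ, 0 < x → x ≤ 1 →
    0 < |u| → |u| ≤ 1 → ‖PSI ψ x u‖ ≤ A * (lm (Ideal.absNorm 𝔪) 0 + Real.log (1 / |u|))

/-- FARR: away from the real axis. -/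
def StFARR : Prop := ∃ A : ℝ, 0 ≤ A ∧ ∀ (𝔪 : Ideal (𝓞 K)), 𝔪 ≠ ⊥ →
  ∀ ψ : Ideal (𝓞 K) →*₀ ℂ, IsRay 𝔪 ψ → ∀ Q : ℝ, 20 ≤ Q → (Ideal.absNorm 𝔪 : ℝ) ≤ Q ^ 2 →
  ∀ x u : ℝ, 0 < x → x ≤ 1 → 1 / (2 * Real.log Q) ≤ |u| → |u| ≤ 2 * Q →
    ‖PSI ψ x u‖ ≤ A * lq Q

/-- PAGER: at most one exceptional class. -/
def StPAGER : Prop := ∃ A : ℝ, 0 ≤ A ∧ ∀ Q : ℝ, 20 ≤ Q → ∃ 𝔪₁ : Ideal (𝓞 K), 𝔪₁ ≠ ⊥ ∧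
  ∃ ψ₁ : Ideal (𝓞 K) →*₀ ℂ, IsRay 𝔪₁ ψ₁ ∧ ∀ (𝔪 : Ideal (𝓞 K)), 𝔪 ≠ ⊥ →
  ∀ ψ : Ideal (𝓞 K) →*₀ ℂ, IsRay 𝔪 ψ → (Ideal.absNorm 𝔪 : ℝ) ≤ Q ^ 2 → ¬ TR 𝔪 ψ →
    ¬ TR (𝔪₁ * 𝔪) (ψ₁ * ψ) → ∀ x u : ℝ, 0 < x → x ≤ 1 → |u| ≤ 2 * Q → ‖PSI ψ x u‖ ≤ A * lq Q

/-- BESR: the inequality of Bessel. -/
def StBESR : Prop := ∃ C : ℝ, 0 ≤ C ∧ ∀ Q : ℝ, 20 ≤ Q → ∃ 𝔪₁ : Ideal (𝓞 K), 𝔪₁ ≠ ⊥ ∧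
  ∃ ψ₁ : Ideal (𝓞 K) →*₀ ℂ, IsRay 𝔪₁ ψ₁ ∧
  ∀ (c : HeightOneSpectrum (𝓞 K) → ℝ), (∀ v, |c v| ≤ 2) →
  ∀ δ : ℝ, 0 < δ → δ ≤ 1 / 2 → ∀ (n : ℕ) (𝔪 : Fin n → Ideal (𝓞 K))
    (ψ : Fin n → (Ideal (𝓞 K) →*₀ ℂ)) (t : Fin n → ℝ),
    (∀ i, 𝔪 i ≠ ⊥ ∧ IsRay (𝔪 i) (ψ i) ∧ (Ideal.absNorm (𝔪 i) : ℝ) ≤ Q ∧ |t i| ≤ Q) →
    (∀ i j, i ≠ j → TR (𝔪 i * 𝔪 j) (ψ i * cj (ψ j)) → 1 / Real.log Q ≤ |t i - t j|) →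
    ∑ i, ‖CR c (fun v => ψ i v.asIdeal) δ (t i)‖ ^ 2 ≤
      8 * Real.log (1 / δ) ^ 2 + C * n * lq Q * Real.log (1 / δ) ∧
    ((∀ i j, TR (𝔪₁ * (𝔪 i * 𝔪 j)) (ψ₁ * (ψ i * cj (ψ j))) →
        TR (𝔪 i * 𝔪 j) (ψ i * cj (ψ j))) →
      ∑ i, ‖CR c (fun v => ψ i v.asIdeal) δ (t i)‖ ^ 2 ≤
        4 * Real.log (1 / δ) ^ 2 + C * n * lq Q * Real.log (1 / δ))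

/-- LOGR: the twisted L-function of `E`. -/
def StLOGR : Prop := ∃ A : ℝ, 0 ≤ A ∧ ∀ (E : WeierstrassCurve K)
  (f : HeightOneSpectrum (𝓞 K) → ℂ), (∀ v, ‖f v‖ ≤ 1) → ∀ δ t : ℝ, 0 < δ →
    Multipliable (fun v : HeightOneSpectrum (𝓞 K) => (Polynomial.aeval
      (f v * (nm v : ℂ) ^ (-((3 / 2 + δ : ℝ) + t * Complex.I : ℂ))) (lp E v))⁻¹) ∧
    |Real.log ‖LE E f ((3 / 2 + δ : ℝ) + t * Complex.I)‖ -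
      (CR (fun v => cc E v) f δ t).re| ≤ A

/-- MAINR: the theorem. -/
def StMAINR : Prop := ∃ C : ℝ, 0 ≤ C ∧ ∀ Q : ℝ, 20 ≤ Q → ∃ 𝔪₁ : Ideal (𝓞 K), 𝔪₁ ≠ ⊥ ∧
  ∃ ψ₁ : Ideal (𝓞 K) →*₀ ℂ, IsRay 𝔪₁ ψ₁ ∧
  ∀ (E : WeierstrassCurve K) [E.IsElliptic] (δ : ℝ), 0 < δ → δ ≤ 1 / 2 →
  ∀ (n : ℕ) (𝔪 : Fin n → Ideal (𝓞 K)) (ψ : Fin n → (Ideal (𝓞 K) →*₀ ℂ)) (t : Fin n → ℝ),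
    (∀ i, 𝔪 i ≠ ⊥ ∧ IsRay (𝔪 i) (ψ i) ∧ (Ideal.absNorm (𝔪 i) : ℝ) ≤ Q ∧ |t i| ≤ Q) →
    (∀ i j, i ≠ j → TR (𝔪 i * 𝔪 j) (ψ i * cj (ψ j)) → 1 / Real.log Q ≤ |t i - t j|) →
    ∑ i, Real.log ‖LE E (fun v => ψ i v.asIdeal) ((3 / 2 + δ : ℝ) + t i * Complex.I)‖ ^ 2 ≤
      8 * Real.log (1 / δ) ^ 2 + C * n * lq Q * Real.log (1 / δ) ∧
    ((∀ i j, TR (𝔪₁ * (𝔪 i * 𝔪 j)) (ψ₁ * (ψ i * cj (ψ j))) →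
        TR (𝔪 i * 𝔪 j) (ψ i * cj (ψ j))) →
      ∑ i, Real.log ‖LE E (fun v => ψ i v.asIdeal) ((3 / 2 + δ : ℝ) + t i * Complex.I)‖ ^ 2 ≤
        4 * Real.log (1 / δ) ^ 2 + C * n * lq Q * Real.log (1 / δ))

end Pool.Agent.Lib.MP_bf61d2_nt.Artin.Ray
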