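import Pool.Agent.Lib.MP_bf61d2_nt.Artin.R.StmtsR
import Pool.Agent.Lib.MP_bf61d2_nt.Artin.T.LTX84

set_option autoImplicit false

/-!
RAY (MP_bf61d2_nt), module LOGR: the logarithm of the Euler product of a twist of `E`.
-/

namespace Pool.Agent.Lib.MP_bf61d2_nt.Artin.Ray

open NumberField IsDedekindDomain Filter Topology

universe u

variable {K : Type u} [Field K] [NumberField K]

namespace LOGR84

lemma aeval_lp (W : WeierstrassCurve K) (v : HeightOneSpectrum (𝓞 K)) (ω s : ℂ) :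
    Polynomial.aeval (ω * (nm v : ℂ) ^ (-s)) (lp W v) = 1 - LTX84.zw W v ω s := by
  conv_lhs => rw [(lp_eq W v).1]
  rw [quad, LTX84.zw]
  simp only [map_add, map_sub, map_mul, map_one, map_pow, Polynomial.aeval_X, eq_intCast,
    map_intCast]
  ring

/-- The Euler product as an exponential. -/
theorem hasProd (W : WeierstrassCurve K) {f : HeightOneSpectrum (𝓞 K) → ℂ} (hf : ∀ v, ‖f v‖ ≤ 1)
    {s : ℂ} (hs : 3 / 2 < s.re) :
    HasProd (fun v : HeightOneSpectrum (𝓞 K) => (Polynomial.aeval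
      (f v * (nm v : ℂ) ^ (-s)) (lp W v))⁻¹)
      (Complex.exp (∑' v : HeightOneSpectrum (𝓞 K), -Complex.log (1 - LTX84.zw W v (f v) s))) := by
  have hsl : Summable fun v : HeightOneSpectrum (𝓞 K) =>
      -Complex.log (1 - LTX84.zw W v (f v) s) :=
    Summable.of_norm_bounded ((summable_xi W hs).mul_left 14) fun v =>
      LTX84.norm_lam_le W v (hf v) hs.le
  have h := hsl.hasSum.cexp
  have e : (fun v : HeightOneSpectrum (𝓞 K) => (Polynomial.aeval
      (f v * (nm v : ℂ) ^ (-s)) (lp W v))⁻¹) =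
      Complex.exp ∘ fun v : HeightOneSpectrum (𝓞 K) => -Complex.log (1 - LTX84.zw W v (f v) s) := by
    funext v
    have h3 : ‖LTX84.zw W v (f v) s‖ ≤ 24 / 25 :=
      (LTX84.norm_zw_le W v (hf v) s).trans (xi_le W v hs.le)
    have hne : 1 - LTX84.zw W v (f v) s ≠ 0 := by
      intro h
      have : ‖(1 : ℂ)‖ = ‖LTX84.zw W v (f v) s‖ := by rw [sub_eq_zero.mp h]
      rw [norm_one] at this
      linarith
    rw [Function.comp_apply, aeval_lp, Complex.exp_neg, Complex.exp_log hne]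
  rw [e]
  exact h

end LOGR84

/-- LOGR: the twisted L-function of `E`. -/
theorem stLOGR (K : Type u) [Field K] [NumberField K] : StLOGR K := by
  refine ⟨RB K, RB_nonneg, fun E f hf δ t hδ => ?_⟩
  have e0 : (((3 / 2 + δ : ℝ) : ℂ) + t * Complex.I).re = 3 / 2 + δ := by simp
  have h0 := LOGR84.hasProd E hf (s := ((3 / 2 + δ : ℝ) : ℂ) + t * Complex.I)
    (by rw [e0]; linarith)
  refine ⟨h0.multipliable, ?_⟩
  set s : ℂ := ((3 / 2 + δ : ℝ) : ℂ) + t * Complex.I with hs
  have hre : s.re = 3 / 2 + δ := e0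
  have h1 : 3 / 2 < s.re := by rw [hre]; linarith
  rw [LE, h0.tprod_eq, Complex.norm_exp, Real.log_exp, ← Complex.sub_re]
  refine (Complex.abs_re_le_norm _).trans ?_
  have hsl : Summable fun v : HeightOneSpectrum (𝓞 K) =>
      -Complex.log (1 - LTX84.zw E v (f v) s) :=
    Summable.of_norm_bounded ((summable_xi E h1).mul_left 14) fun v =>
      LTX84.norm_lam_le E v (hf v) h1.le
  have hterm : ∀ v : HeightOneSpectrum (𝓞 K),
      (wp (1 + δ) v : ℂ) * ((cc E v : ℂ) * (f v * ph t (nm v))) =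
        cc E v * (f v * (nm v : ℂ) ^ (-(s - 1 / 2))) := by
    intro v
    rw [hs, cpow_eq_ph]
    ring
  have hs2 : Summable fun v : HeightOneSpectrum (𝓞 K) =>
      (wp (1 + δ) v : ℂ) * ((cc E v : ℂ) * (f v * ph t (nm v))) := by
    refine Summable.of_norm_bounded ((summable_wp (K := K) (by linarith : 1 < 1 + δ)).mul_left 2)
      fun v => ?_
    rw [norm_mul, norm_mul, norm_mul, norm_ph, mul_one, Complex.norm_real, Complex.norm_real,
      Real.norm_eq_abs, Real.norm_eq_abs, abs_of_pos (wp_pos _ v)]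
    have h3 : |cc E v| * ‖f v‖ ≤ 2 * 1 :=
      mul_le_mul (abs_cc_le E v) (hf v) (norm_nonneg _) (by norm_num)
    have := wp_pos (1 + δ) v
    nlinarith
  rw [CR, SC, ← hsl.tsum_sub hs2]
  refine tsum_of_norm_bounded summable_bound.hasSum fun v => ?_
  rw [hterm v]
  exact LTX84.norm_rho_le E v (hf v) h1.le

end Pool.Agent.Lib.MP_bf61d2_nt.Artin.Ray
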